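import Pool.Agent.T63.OP.Def
import Pool.Agent.N694.BR.Abs

/-!
# Almost all vectors of times in a Bohr set: Cunningham orbits along narrow progressions of starting values

Let `S z = a z + b` with `a ≥ 2` and `b` coprime to `a`. For `a = 2`, `b = -1` the sequence
`p, S(p), S²(p), ...` is the Cunningham chain of the second kind generated by `p`.

For all `k`, `s` and `ε > 0` there are `d` and `ρ, δ > 0` such that for all `a ≥ 2`, `b` coprime to `a` and
`q ≥ 1` there are `M` and `n₀` such that for EVERY multiple `N` of `M` and every `H ≥ n₀` there are real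
numbers `θ_1, ..., θ_d'`, `d' ≤ d`, and a radius `ρ ≤ r ≤ 1` such that the Bohr set

  `B = { t : |t| ≤ H, |exp (2 π i θ_j t) - 1| ≤ r for all j }`

has at least `δ H` elements, and for all but at most `ε |B|^k` of the vectors `y ∈ B^k` the following holds
for every nonsingular integer matrix `T` with entries at most `s` in absolute value, every length `l` and
every bound `R`. Let `(h_1, ..., h_k) = N T y`, `h_0 = 0`, and let `t_i = h_i - min h` be the times, the least
of which is `0`. Then for arbitrarily large `x` and every `J ⊆ {0, ..., k}` there is a difference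
`1 ≤ D ≤ (log x)^C` such that for at least `x / (log x)^C` of the `m ≤ x`, for each of the `l` starting values
`n = m, m + D, ..., m + (l - 1) D`, of the numbers `S^{t_0}(n), ..., S^{t_k}(n)` exactly those with index in
`J` are prime, all values at the times `u ≤ R` not divisible by `q` are composite, and `n` is not one of the
first `q - 1` iterates of a prime.

Proof: almost cliques of the linear forms `S^t(z)` for patterns along narrow progressions
(`Pool.Agent.N694.NB.clqF`) and the theorem on returns in Bohr sets (`Pool.Agent.N694.BR.bohr`), both in the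
starting files.
-/

set_option autoImplicit false

namespace Pool.Agent.Results.MP_9f2731_nt.BohrSetsOfTimesAlongProgressions

open Finset Filter
open Pool.Agent.T63.OP (S Pattern Good good_of cleT)

open Classical in
/-- the Bohr set of the integers `|t| ≤ H` with `|exp (2πiθt) - 1| ≤ r` for all `θ ∈ Θ` -/
noncomputable def bohrSet (Θ : Finset ℝ) (r : ℝ) (H : ℕ) : Finset ℤ :=
  (Icc (-(H : ℤ)) H).filter (fun t => ∀ θ ∈ Θ,
    ‖Complex.exp (2 * Real.pi * Complex.I * θ * t) - 1‖ ≤ r)

/-- the set of the vectors with `k` coordinates in `B` -/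
def vectors (k : ℕ) (B : Finset ℤ) : Finset (Fin k → ℤ) := Fintype.piFinset (fun _ => B)

/-- **Bohr sets of times, orbits along narrow progressions of starting values.** -/
theorem result (k s : ℕ) (ε : ℝ) (hε : 0 < ε) : ∃ (d : ℕ) (ρ δ : ℝ), 0 < ρ ∧ 0 < δ ∧
    ∀ (a : ℕ) (b : ℤ), 2 ≤ a → IsCoprime (a : ℤ) b → ∀ q : ℕ, 1 ≤ q → ∃ M n₀ : ℕ, 1 ≤ M ∧
      ∀ N : ℕ, 1 ≤ N → M ∣ N → ∀ H : ℕ, n₀ ≤ H → ∃ (Θ : Finset ℝ) (r : ℝ),
        Θ.card ≤ d ∧ ρ ≤ r ∧ r ≤ 1 ∧ δ * H ≤ (bohrSet Θ r H).card ∧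
        ∃ 𝒢 ⊆ vectors k (bohrSet Θ r H),
          ((vectors k (bohrSet Θ r H) \ 𝒢).card : ℝ) ≤ ε * ((bohrSet Θ r H).card : ℝ) ^ k ∧
          ∀ y ∈ 𝒢, ∀ T : Matrix (Fin k) (Fin k) ℤ, (∀ i j, |T i j| ≤ s) → T.det ≠ 0 →
            Good a b q (fun i => N * (T.mulVec y) i) := by
  obtain ⟨d, ρ, δ, ε', hρ, hδ, hε', h⟩ := Pool.Agent.N694.BR.bohr k s ε hε
  refine ⟨d, ρ, δ, hρ, hδ, fun a b ha hab q hq => ?_⟩
  obtain ⟨M, n₀, hM, h1⟩ := h _ (cleT k ε' hε' a b ha hab q hq)
  refine ⟨M, n₀, hM, fun N hN hMN H hH => ?_⟩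
  obtain ⟨Θ, r, g1, g2, g3, g4, 𝒢, g5, g6, g7⟩ := h1 N hN hMN H hH
  refine ⟨Θ, r, g1, g2, g3, g4, 𝒢, g5, ?_, fun y hy T hT hdet => good_of (g7 y hy T hT hdet).2⟩
  refine le_trans (le_of_eq ?_) g6
  congr 2

end Pool.Agent.Results.MP_9f2731_nt.BohrSetsOfTimesAlongProgressions
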