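import Pool.Agent.T63.OP.Def

/-!
# In every box of times: prime patterns in Cunningham orbits along narrow progressions of starting values

Let `S z = a z + b` with `a ≥ 2` and `b` coprime to `a`. For `a = 2`, `b = -1` the sequence
`p, S(p), S²(p), ...` is the Cunningham chain of the second kind generated by `p`. Let `q ≥ 1`. There is `M`
such that for EVERY multiple `N` of `M`, in every large box `c + N [0, T)^k` of multiples of `M`, wherever it
lies, at least the proportion `(k + 1) (5/18)^k - ε` of the vectors `h` have the following property for every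
length `l` and every bound `R`. Let `h_0 = 0` and let `t_i = h_i - min h` be the times, the least of which is
`0`. For arbitrarily large `x` and for every `J ⊆ {0, ..., k}` there is a difference `1 ≤ D ≤ (log x)^C` such
that for at least `x / (log x)^C` of the `m ≤ x`, for each of the `l` starting values
`n = m, m + D, ..., m + (l - 1) D`, of the numbers `S^{t_0}(n), ..., S^{t_k}(n)` exactly those with index in
`J` are prime, all values `S^u(n)` at the times `u ≤ R` not divisible by `q` are composite, and `n` is not one
of the first `q - 1` iterates of a prime.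

So (`J = {0, ..., k}`) there are arbitrarily long narrow progressions of numbers whose orbits all have primes
at all the times `t_0, ..., t_k`, for `(k + 1) (5/18)^k - ε` of all vectors: `5/9` for `k = 1`, `25/108` for
`k = 2`; and for `q ≥ 2` no primes at any other times `u ≤ R` which are not multiples of `q`.

Proof: almost cliques of the linear forms `S^t(z)` for patterns along narrow progressions
(`Pool.Agent.N694.NB.clqF`: the coloured Maynard-Tao theorem and hypergraph containers) and the theorem on
good vectors in boxes (`Pool.Agent.N646.BX.box_main`), both in the starting files.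
-/

set_option autoImplicit false

namespace Pool.Agent.Results.MP_9f2731_nt.BoxesOfTimesAlongProgressions

open Finset Filter
open Pool.Agent.T63.OP (S Pattern Good good_of cleT)

/-- **In every box of times, orbits along narrow progressions of starting values.** -/
theorem result (k : ℕ) (hk : 1 ≤ k) (ε : ℝ) (hε : 0 < ε) (a : ℕ) (b : ℤ) (ha : 2 ≤ a)
    (hab : IsCoprime (a : ℤ) b) (q : ℕ) (hq : 1 ≤ q) : ∃ M : ℕ, 1 ≤ M ∧ ∀ N : ℕ, 1 ≤ N → M ∣ N →
      ∃ L : ℕ, ∀ T : ℕ, L ≤ T → ∀ c : Fin k → ℤ, (∀ j, (M : ℤ) ∣ c j) →
        ((k + 1) * (5 / 18 : ℝ) ^ k - ε) * (T : ℝ) ^ k ≤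
          ({t : Fin k → ℕ | (∀ j, t j < T) ∧ Good a b q (fun j => c j + N * t j)}.ncard : ℝ) := by
  classical
  obtain ⟨ε', hε', h⟩ := Pool.Agent.N646.BX.box_main k hk (5 / 18) (by norm_num) (by norm_num) ε hε
  obtain ⟨M, hM, h1⟩ := h _ (cleT k ε' hε' a b ha hab q hq)
  refine ⟨M, hM, fun N hN hMN => ?_⟩
  obtain ⟨L, h2⟩ := h1 N hN hMN
  refine ⟨L, fun T hT c hc => (h2 T hT c hc).trans ?_⟩
  unfold Pool.Agent.N646.BX.cnt
  rw [← Set.ncard_coe_finset, Nat.cast_le]
  have hfin : {t : Fin k → ℕ | (∀ j, t j < T) ∧ Good a b q (fun j => c j + N * t j)}.Finite := by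
    apply (Fintype.piFinset (fun _ : Fin k => range T)).finite_toSet.subset
    intro t ht
    rw [mem_coe, Fintype.mem_piFinset]
    exact fun j => mem_range.2 (ht.1 j)
  apply Set.ncard_le_ncard_of_injOn (fun t : Fin k → ℤ => fun j => (t j).toNat) _ _ hfin
  · intro t ht
    rw [mem_coe, mem_filter, Fintype.mem_piFinset] at ht
    obtain ⟨g1, g2⟩ := ht
    refine ⟨fun j => ?_, ?_⟩
    · have := mem_Ico.1 (g1 j)
      show (t j).toNat < T
      omega
    · have g3 : (fun j => c j + N * (((t j).toNat : ℕ) : ℤ)) = fun j => c j + N * t j := by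
        funext j
        rw [Int.toNat_of_nonneg (mem_Ico.1 (g1 j)).1]
      show Good a b q (fun j => c j + N * (((t j).toNat : ℕ) : ℤ))
      rw [g3]
      exact good_of g2
  · intro t ht t' ht' htt
    rw [mem_coe, mem_filter, Fintype.mem_piFinset] at ht ht'
    funext j
    have g1 := mem_Ico.1 (ht.1 j)
    have g2 := mem_Ico.1 (ht'.1 j)
    have g3 : (t j).toNat = (t' j).toNat := congrFun htt j
    omega

end Pool.Agent.Results.MP_9f2731_nt.BoxesOfTimesAlongProgressions
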