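import Pool.Agent.T63.OP.Def
import Pool.Agent.T63.OP.Eq

/-!
# Linear equations in vectors of times: Cunningham orbits along narrow progressions of starting values

Let `S z = a z + b` with `a ≥ 2` and `b` coprime to `a`. For `a = 2`, `b = -1` the sequence
`p, S(p), S²(p), ...` is the Cunningham chain of the second kind generated by `p`. A vector `h` of `k` integers
is good (`Good a b q h`) if for every length `l` and every bound `R` the following holds. Let `h_0 = 0` and let
`t_i = h_i - min h` be the times, the least of which is `0`. For arbitrarily large `x` and for every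
`J ⊆ {0, ..., k}` there is a difference `1 ≤ D ≤ (log x)^C` such that for at least `x / (log x)^C` of the
`m ≤ x`, for each of the `l` starting values `n = m, m + D, ..., m + (l - 1) D`, of the numbers
`S^{t_0}(n), ..., S^{t_k}(n)` exactly those with index in `J` are prime, all values at the times `u ≤ R` not
divisible by `q` are composite, and `n` is not one of the first `q - 1` iterates of a prime.

Theorem. Let `p ≥ 2` with `(k + 1) (18 - 5 p) < 18` (every `p ≥ 4` for all `k`; `p = 3` for `k ≤ 4`, `p = 2`
for `k = 1`) and let `w_1, ..., w_p` be nonzero integers. There are `N ≥ 1`, `B` and `c > 0` such that for all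
`T ≥ B` and ALL vectors `v` of `k` multiples of `N` with `B |v_j| ≤ T`, the equation
`w_1 h^1 + ... + w_p h^p = v` has at least `c T ^ ((p - 1) k)` solutions (the right order of magnitude) in good
vectors `h^i` with coordinates in `(-T, T)`.

Proof: almost cliques of the linear forms `S^t(z)` for patterns along narrow progressions
(`Pool.Agent.N694.NB.clqF`) and the theorem on linear equations in the differences of almost cliques
(`Pool.Agent.N646.SF.sfgT`), both in the starting files.
-/

set_option autoImplicit false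

namespace Pool.Agent.Results.MP_9f2731_nt.LinearEquationsOfTimes

open Finset Filter
open Pool.Agent.T63.OP (S Pattern Good good_of cleT)

open Classical in
/-- the solutions of `w_1 h^1 + ... + w_p h^p = v` in vectors `h^i` with coordinates in `(-T, T)` with the
property `g` -/
noncomputable def solutions {k p : ℕ} (g : (Fin k → ℤ) → Prop) (w : Fin p → ℤ) (v : Fin k → ℤ) (T : ℕ) :
    Finset (Fin p → Fin k → ℤ) :=
  (Fintype.piFinset (fun _ : Fin p => Fintype.piFinset (fun _ : Fin k => Ioo (-(T : ℤ)) T))).filter
    (fun h => (∀ i, g (h i)) ∧ ∀ j, ∑ i, w i * h i j = v j)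

/-- **Linear equations in good vectors of times.** -/
theorem result (k p : ℕ) (w : Fin p → ℤ) (hw : ∀ i, w i ≠ 0) (hp : 2 ≤ p)
    (hk : ((k : ℤ) + 1) * (18 - 5 * p) < 18) (a : ℕ) (b : ℤ) (ha : 2 ≤ a)
    (hab : IsCoprime (a : ℤ) b) (q : ℕ) (hq : 1 ≤ q) :
    ∃ N B : ℕ, 1 ≤ N ∧ 1 ≤ B ∧ ∃ c : ℝ, 0 < c ∧ ∀ T : ℕ, B ≤ T →
      ∀ v : Fin k → ℤ, (∀ j, (N : ℤ) ∣ v j) → (∀ j, B * |v j| ≤ T) →
        c * (T : ℝ) ^ ((p - 1) * k) ≤ ((solutions (Good a b q) w v T).card : ℝ) := by
  classical
  obtain ⟨ε', hε', h⟩ := Pool.Agent.T63.OP.equations k p w hw hp hk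
  obtain ⟨N, B, hN, hB, c, hc, h1⟩ := h _ (cleT k ε' hε' a b ha hab q hq)
  refine ⟨N, B, hN, hB, c, hc, fun T hT v hv1 hv2 => (h1 T hT v hv1 hv2).trans ?_⟩
  rw [Nat.cast_le]
  apply card_le_card
  intro y hy
  rw [mem_filter] at hy
  rw [solutions, mem_filter]
  exact ⟨hy.1, fun i => good_of (hy.2.1 i), hy.2.2⟩

end Pool.Agent.Results.MP_9f2731_nt.LinearEquationsOfTimes
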