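import Pool.Agent.Helper30K1.OT.Third

set_option autoImplicit false

/-!
# One third of ALL times: exact patterns of primes in Cunningham orbits along narrow progressions

Let `S z = a z + b` with `a ≥ 2` and `b` coprime to `a`. For `a = 2`, `b = -1` the orbit `p, S(p), S²(p), ...` is
the Cunningham chain of the second kind generated by `p`; we also go backwards: `S^(-v)(n)` is the number `r`
with `S^v(r) = n`. Let `q ≥ 1` and `M = (a - 1) q`; for `a = 2` and `q = 1` this is `M = 1`.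

For every `k` there is `K₀`, and for every `ε > 0` there are `c > 0` and `L`, such that for all such `a`, `b`, `q`,
all `H ≥ L` and all `l`, `R` there is `C` such that at EVERY large `x` at least `(1/3 - ε) H` of ALL integers
`d ≤ H` have the following property. For at least `c H ^ k` of the vectors `t ∈ [-H, H] ^ k` there is a set `P` of
at most `K₀` times, all of them multiples of `M` and at most `M H` in absolute value, which contains `0`, `M d`,
`M t_1, ..., M t_k` and has no element between `0` and `M d`, and which is the exact pattern of the primes of many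
orbits: there is a difference `1 ≤ D ≤ (log x)^C` for which at least `x / (log x)^C` of the `p ≤ x` are such that
for each of the `l` numbers `n = p, p + D, ..., p + (l - 1) D` and all `|u| ≤ R` the number `S^u(n)` is prime if
and only if `u ∈ P`. So `n` and `S^(M d)(n)` are consecutive primes of the orbit, all `S^(M t_i)(n)` are prime, and
the orbit has at most `K₀` primes up to the time `R` in both directions.

As `d`, `t` and `P` run through finite sets, one third of all `d` have this property for all `l` and `R`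
simultaneously and for arbitrarily large `x`, with fixed `t` and `P`: this is `fixed_patterns`.

Proof: the coloured Maynard-Tao theorem along narrow progressions (`Pool.Agent.Y827.HN.patR`) for the forms
`S^v(z)`, applied to four groups of `k + 1` classes of times with all differences in the set of the bad `d`
(`Pool.Agent.N646.TT.config2`), both in the starting files; van der Waerden's theorem for the exact patterns
along a narrow progression; two consecutive elements of the exact pattern are in different groups.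
-/

namespace Pool.Agent.Results.MP_9f2731_nt.OneThirdOfTimes

open Finset Filter

/-- the affine map `z ↦ a z + b`; for `a = 2`, `b = -1` the map of the Cunningham chains of the second
kind -/
def S (a : ℕ) (b : ℤ) (z : ℤ) : ℤ := a * z + b

/-- `S^u(n)` is a prime number; for `u < 0` this means that `n = S^(-u)(r)` for a prime number `r`. -/
def PrimeAt (a : ℕ) (b : ℤ) (n : ℕ) (u : ℤ) : Prop :=
  (0 ≤ u ∧ ((S a b)^[u.toNat] n).toNat.Prime) ∨ (u < 0 ∧ ∃ r : ℕ, r.Prime ∧ (S a b)^[(-u).toNat] r = n)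

open Classical in
/-- the number of the `1 ≤ p ≤ x` such that for all `n = p + j D`, `0 ≤ j < l`, and all integers `|u| ≤ R`
the number `S^u(n)` is prime if and only if `u ∈ P` -/
noncomputable def progressions (a : ℕ) (b : ℤ) (P : Finset ℤ) (l R D x : ℕ) : ℕ :=
  ((Icc 1 x).filter (fun p : ℕ => ∀ j < l, ∀ u : ℤ, |u| ≤ R →
    (PrimeAt a b (p + j * D) u ↔ u ∈ P))).card

/-- There is a difference `1 ≤ D ≤ (log x)^C` with at least `x / (log x)^C` such progressions. -/
def Many (a : ℕ) (b : ℤ) (P : Finset ℤ) (l R C x : ℕ) : Prop :=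
  ∃ D : ℕ, 1 ≤ D ∧ (D : ℝ) ≤ Real.log x ^ C ∧
    (x : ℝ) / Real.log x ^ C ≤ (progressions a b P l R D x : ℝ)

/-- `P` is a set of at most `K₀` multiples of `M₀ = (a - 1) q` in `[-M₀ H, M₀ H]`, it contains `0`, `M₀ d` and
all `M₀ t_i`, and it has no element between `0` and `M₀ d`. -/
def Pattern {k : ℕ} (a q K₀ H d : ℕ) (t : Fin k → ℤ) (P : Finset ℤ) : Prop :=
  P.card ≤ K₀ ∧ (∀ u ∈ P, ((a : ℤ) - 1) * q ∣ u ∧ |u| ≤ ((a : ℤ) - 1) * q * H) ∧ 0 ∈ P ∧
    ((a : ℤ) - 1) * q * d ∈ P ∧ (∀ i, ((a : ℤ) - 1) * q * t i ∈ P) ∧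
    ∀ u ∈ P, ¬ (0 < u ∧ u < ((a : ℤ) - 1) * q * d)

open Classical in
/-- the number of the vectors `t ∈ [-H, H] ^ k` with different coordinates, none of them `0` or `d`, for which
there is a pattern `P` as above with the property `G` -/
noncomputable def extensions (k a q K₀ H d : ℕ) (G : Finset ℤ → Prop) : ℕ :=
  ((Fintype.piFinset (fun _ : Fin k => Icc (-(H : ℤ)) H)).filter (fun t : Fin k → ℤ =>
    Function.Injective t ∧ (∀ i, t i ≠ 0 ∧ t i ≠ d) ∧ ∃ P, Pattern a q K₀ H d t P ∧ G P)).card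

theorem primeAt_iff {a : ℕ} {b : ℤ} {n : ℕ} {u : ℤ} :
    PrimeAt a b n u ↔ Pool.Agent.Helper30K1.OT.At a b n u := by
  have h : ∀ (v : ℕ) (z : ℤ), (S a b)^[v] z = Pool.Agent.N694.OB.va a b v z :=
    Pool.Agent.N694.OB.iter a b
  unfold PrimeAt Pool.Agent.Helper30K1.OT.At
  simp only [h]

theorem many_of {a : ℕ} {b : ℤ} {P : Finset ℤ} {l R C x : ℕ}
    (h : Pool.Agent.Helper30K1.OT.Many a b P l R C x) : Many a b P l R C x := by
  classical
  obtain ⟨D, h1, h2, h3⟩ := h
  refine ⟨D, h1, h2, h3.trans ?_⟩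
  rw [Nat.cast_le]
  unfold Pool.Agent.Helper30K1.OT.ce progressions
  apply card_le_card
  intro p hp
  obtain ⟨h4, h5⟩ := mem_filter.1 hp
  exact mem_filter.2 ⟨h4, fun j hj u hu => primeAt_iff.trans (h5 j hj u hu)⟩

theorem pattern_of {k a q K₀ H d : ℕ} (ha : 2 ≤ a) {t : Fin k → ℤ} {P : Finset ℤ}
    (h : Pool.Agent.Helper30K1.OT.Shape ((a - 1) * q) K₀ H d t P) : Pattern a q K₀ H d t P := by
  have e : (((a - 1) * q : ℕ) : ℤ) = ((a : ℤ) - 1) * q := by
    push_cast [Nat.cast_sub (by omega : 1 ≤ a)]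
    ring
  unfold Pool.Agent.Helper30K1.OT.Shape at h
  rw [e] at h
  exact h

theorem extensions_le {k a q K₀ H d : ℕ} (ha : 2 ≤ a) {G G' : Finset ℤ → Prop} (hG : ∀ P, G P → G' P) :
    (Pool.Agent.N646.TT.extQ k (fun d t => ∃ P : Finset ℤ,
      Pool.Agent.Helper30K1.OT.Shape ((a - 1) * q) K₀ H d t P ∧ G P) H d).card ≤
      extensions k a q K₀ H d G' := by
  classical
  unfold extensions
  apply card_le_card
  intro t ht
  obtain ⟨h1, h2, h3, P, h4, h5⟩ := Pool.Agent.Helper30K1.OT.mem_extQ.1 ht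
  exact mem_filter.2 ⟨h1, h2, h3, P, pattern_of ha h4, hG P h5⟩

open Classical in
/-- the property for all `l` and `R` and arbitrarily large `x`, with fixed `d`, `t` and `P` -/
theorem fixed_patterns (k : ℕ) : ∃ K₀ : ℕ, ∀ ε : ℝ, 0 < ε → ∃ c : ℝ, 0 < c ∧ ∃ L : ℕ, ∀ (a : ℕ) (b : ℤ),
    2 ≤ a → IsCoprime (a : ℤ) b → ∀ q : ℕ, 1 ≤ q → ∀ H : ℕ, L ≤ H →
      (1 / 3 - ε) * (H : ℝ) ≤ (((Icc 1 H).filter (fun d : ℕ => c * (H : ℝ) ^ k ≤
        (extensions k a q K₀ H d (fun P => ∀ l R : ℕ, ∃ C : ℕ, ∃ᶠ x : ℕ in atTop,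
          Many a b P l R C x) : ℝ))).card : ℝ) := by
  obtain ⟨K₀, h⟩ := Pool.Agent.Helper30K1.OT.third_orb k
  refine ⟨K₀, fun ε hε => ?_⟩
  obtain ⟨c, hc, L, hL⟩ := h ε hε
  refine ⟨c, hc, L, fun a b ha hab q hq H hH => ?_⟩
  refine (hL a b ha hab q hq H hH).1.trans ?_
  rw [Nat.cast_le]
  apply card_le_card
  intro d hd
  obtain ⟨g1, g2⟩ := mem_filter.1 hd
  refine mem_filter.2 ⟨g1, g2.trans ?_⟩
  rw [Nat.cast_le]
  refine extensions_le ha fun P hP l R => ?_
  obtain ⟨C, hC⟩ := hP l R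
  exact ⟨C, hC.mono fun x hx => many_of hx⟩

open Classical in
/-- **One third of all times.** -/
theorem result (k : ℕ) : ∃ K₀ : ℕ, ∀ ε : ℝ, 0 < ε → ∃ c : ℝ, 0 < c ∧ ∃ L : ℕ, ∀ (a : ℕ) (b : ℤ),
    2 ≤ a → IsCoprime (a : ℤ) b → ∀ q : ℕ, 1 ≤ q → ∀ H : ℕ, L ≤ H →
      ∀ l R : ℕ, ∃ C : ℕ, ∀ᶠ x : ℕ in atTop,
        (1 / 3 - ε) * (H : ℝ) ≤ (((Icc 1 H).filter (fun d : ℕ => c * (H : ℝ) ^ k ≤
          (extensions k a q K₀ H d (fun P => Many a b P l R C x) : ℝ))).card : ℝ) := by
  obtain ⟨K₀, h⟩ := Pool.Agent.Helper30K1.OT.third_orb k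
  refine ⟨K₀, fun ε hε => ?_⟩
  obtain ⟨c, hc, L, hL⟩ := h ε hε
  refine ⟨c, hc, L, fun a b ha hab q hq H hH l R => ?_⟩
  obtain ⟨C, hC⟩ := (hL a b ha hab q hq H hH).2 l R
  refine ⟨C, hC.mono fun x hx => hx.trans ?_⟩
  rw [Nat.cast_le]
  apply card_le_card
  intro d hd
  obtain ⟨g1, g2⟩ := mem_filter.1 hd
  refine mem_filter.2 ⟨g1, g2.trans ?_⟩
  rw [Nat.cast_le]
  exact extensions_le ha fun P hP => many_of hP

end Pool.Agent.Results.MP_9f2731_nt.OneThirdOfTimes
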